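import Pool.Agent.Helper15.RA.GoalsH

/-!
# Project RA (MP_cc6379_al), packet RA-H3: the elements `c_w` are a basis
-/

set_option autoImplicit false

open LaurentPolynomial

noncomputable section

namespace Pool.Agent.Helper3.RA

open Pool.Agent.Helper15.RA

section gen

variable {W H : Type} [Ring H] [Algebra ℤ[T;T⁻¹] H] {t : Module.Basis W ℤ[T;T⁻¹] H} {c : W → H}
  {l : W → ℕ}

theorem exists_coord (h1 : ∀ w, t.repr (c w) w = 1)
    (h2 : ∀ w y, t.repr (c w) y ≠ 0 → y = w ∨ l y < l w)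
    (h3 : ∀ w y, y ≠ w → DegLE (-1) (t.repr (c w) y)) (w : W) :
    ∃ d : W →₀ ℤ[T;T⁻¹], Finsupp.linearCombination ℤ[T;T⁻¹] c d = t w ∧ d w = 1 ∧
      ∀ y, y ≠ w → DegLE (-1) (d y) ∧ (d y ≠ 0 → l y < l w) := by
  classical
  induction hn : l w using Nat.strong_induction_on generalizing w with
  | _ n ih =>
    subst hn
    have ih' : ∀ y, ∃ d : W →₀ ℤ[T;T⁻¹], l y < l w →
        (Finsupp.linearCombination ℤ[T;T⁻¹] c d = t y ∧ d y = 1 ∧
          ∀ z, z ≠ y → DegLE (-1) (d z) ∧ (d z ≠ 0 → l z < l y)) := by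
      intro y
      by_cases hy : l y < l w
      · obtain ⟨d, hd⟩ := ih (l y) hy y rfl
        exact ⟨d, fun _ ↦ hd⟩
      · exact ⟨0, fun h ↦ absurd h hy⟩
    choose e he using ih'
    set S := (t.repr (c w)).support.erase w with hS
    have hSl : ∀ y ∈ S, y ≠ w ∧ l y < l w := by
      intro y hy
      rw [hS, Finset.mem_erase, Finsupp.mem_support_iff] at hy
      exact ⟨hy.1, (h2 w y hy.2).resolve_left hy.1⟩
    have hcw : c w = t w + ∑ y ∈ S, t.repr (c w) y • t y := by
      conv_lhs => rw [← t.linearCombination_repr (c w), Finsupp.linearCombination_apply, Finsupp.sum]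
      have hw : w ∈ (t.repr (c w)).support := by
        rw [Finsupp.mem_support_iff, h1 w]
        exact one_ne_zero
      rw [← Finset.add_sum_erase _ _ hw, h1 w, one_smul]
    refine ⟨Finsupp.single w 1 - ∑ y ∈ S, t.repr (c w) y • e y, ?_, ?_, ?_⟩
    · rw [map_sub, map_sum, Finsupp.linearCombination_single, one_smul]
      have : ∑ y ∈ S, Finsupp.linearCombination ℤ[T;T⁻¹] c (t.repr (c w) y • e y) =
          ∑ y ∈ S, t.repr (c w) y • t y :=
        Finset.sum_congr rfl fun y hy ↦ by rw [map_smul, (he y (hSl y hy).2).1]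
      rw [this, sub_eq_iff_eq_add]
      exact hcw
    · rw [Finsupp.sub_apply, Finsupp.single_eq_same, Finsupp.finsetSum_apply, Finset.sum_eq_zero,
        sub_zero]
      intro y hy
      rw [Finsupp.smul_apply, smul_eq_mul]
      by_contra h
      have h4 := (he y (hSl y hy).2).2.2 w (hSl y hy).1.symm
      have h5 := h4.2 (right_ne_zero_of_mul h)
      have h6 := (hSl y hy).2
      omega
    · intro z hz
      have hz' : (Finsupp.single w (1 : ℤ[T;T⁻¹])) z = 0 := Finsupp.single_eq_of_ne hz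
      rw [Finsupp.sub_apply, hz', Finsupp.finsetSum_apply, zero_sub]
      constructor
      · refine DegLE.neg (DegLE.sum fun y hy ↦ ?_)
        rw [Finsupp.smul_apply, smul_eq_mul]
        refine (h3 w y (hSl y hy).1).mul_le (l := 0) ?_ (by norm_num)
        by_cases hzy : z = y
        · rw [hzy, (he y (hSl y hy).2).2.1]
          exact DegLE.one le_rfl
        · exact ((he y (hSl y hy).2).2.2 z hzy).1.mono (by norm_num)
      · intro h
        rw [neg_ne_zero] at h
        obtain ⟨y, hy, hy0⟩ := Finset.exists_ne_zero_of_sum_ne_zero h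
        rw [Finsupp.smul_apply, smul_eq_mul] at hy0
        by_cases hzy : z = y
        · rw [hzy]
          exact (hSl y hy).2
        · exact (((he y (hSl y hy).2).2.2 z hzy).2 (right_ne_zero_of_mul hy0)).trans (hSl y hy).2

theorem linInd (h1 : ∀ w, t.repr (c w) w = 1)
    (h2 : ∀ w y, t.repr (c w) y ≠ 0 → y = w ∨ l y < l w) : LinearIndependent ℤ[T;T⁻¹] c := by
  classical
  rw [linearIndependent_iff]
  intro p hp
  by_contra h0
  obtain ⟨w, hw, hmax⟩ := Finset.exists_max_image p.support l (Finsupp.support_nonempty_iff.2 h0)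
  have h3 : t.repr (Finsupp.linearCombination ℤ[T;T⁻¹] c p) w = p w := by
    rw [Finsupp.linearCombination_apply, Finsupp.sum, map_sum, Finsupp.finsetSum_apply,
      Finset.sum_eq_single w]
    · rw [map_smul, Finsupp.smul_apply, smul_eq_mul, h1 w, mul_one]
    · intro y hy hyw
      rw [map_smul, Finsupp.smul_apply, smul_eq_mul]
      by_contra h
      rcases h2 y w (right_ne_zero_of_mul h) with h4 | h4
      · exact hyw h4.symm
      · exact absurd (hmax y hy) (not_le.2 h4)
    · intro h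
      exact absurd hw h
  rw [hp, map_zero, Finsupp.zero_apply] at h3
  exact Finsupp.mem_support_iff.1 hw h3.symm

theorem exists_basis (h1 : ∀ w, t.repr (c w) w = 1)
    (h2 : ∀ w y, t.repr (c w) y ≠ 0 → y = w ∨ l y < l w)
    (h3 : ∀ w y, y ≠ w → DegLE (-1) (t.repr (c w) y)) :
    ∃ b : Module.Basis W ℤ[T;T⁻¹] H, (∀ w, b w = c w) ∧ (∀ w, b.repr (t w) w = 1) ∧
      ∀ w y, y ≠ w → DegLE (-1) (b.repr (t w) y) ∧ (b.repr (t w) y ≠ 0 → l y < l w) := by
  have hsp : ⊤ ≤ Submodule.span ℤ[T;T⁻¹] (Set.range c) := by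
    rw [← t.span_eq, Submodule.span_le]
    rintro _ ⟨w, rfl⟩
    obtain ⟨d, hd, -⟩ := exists_coord h1 h2 h3 w
    rw [← hd, Finsupp.linearCombination_apply]
    exact Submodule.sum_mem _ fun y _ ↦
      Submodule.smul_mem _ _ (Submodule.subset_span (Set.mem_range_self y))
  set b := Module.Basis.mk (linInd h1 h2) hsp with hb
  have hbc : ⇑b = c := Module.Basis.coe_mk _ _
  have hrep : ∀ w, ∃ d : W →₀ ℤ[T;T⁻¹], b.repr (t w) = d ∧ d w = 1 ∧
      ∀ y, y ≠ w → DegLE (-1) (d y) ∧ (d y ≠ 0 → l y < l w) := by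
    intro w
    obtain ⟨d, hd, h4⟩ := exists_coord h1 h2 h3 w
    refine ⟨d, ?_, h4⟩
    rw [← hd, ← hbc, b.repr_linearCombination]
  refine ⟨b, fun w ↦ congrFun hbc w, fun w ↦ ?_, fun w y hy ↦ ?_⟩
  · obtain ⟨d, hd, h4, -⟩ := hrep w
    rw [hd, h4]
  · obtain ⟨d, hd, -, h4⟩ := hrep w
    rw [hd]
    exact h4 y hy

/-- change of the basis keeps bounds on the degree -/
theorem degLE_repr {b b' : Module.Basis W ℤ[T;T⁻¹] H} {k : ℤ} {Z : H}
    (hb : ∀ w y, DegLE 0 (b'.repr (b w) y)) (hZ : ∀ w, DegLE k (b.repr Z w)) (y : W) :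
    DegLE k (b'.repr Z y) := by
  have h : b'.repr Z y = ∑ w ∈ (b.repr Z).support, b.repr Z w * b'.repr (b w) y := by
    conv_lhs => rw [← b.linearCombination_repr Z, Finsupp.linearCombination_apply, Finsupp.sum, map_sum,
      Finsupp.finsetSum_apply]
    exact Finset.sum_congr rfl fun w _ ↦ by rw [map_smul, Finsupp.smul_apply, smul_eq_mul]
  rw [h]
  exact DegLE.sum fun w _ ↦ (hZ w).mul_le (hb w y) (by omega)

/-- the degree of the coordinates of a product -/
theorem degLE_mul {k : ℤ} {Y Z : H} (hY : ∀ w, DegLE 0 (t.repr Y w)) (hZ : ∀ w, DegLE 0 (t.repr Z w))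
    (ht : ∀ x y z, DegLE k (t.repr (t x * t y) z)) (z : W) : DegLE k (t.repr (Y * Z) z) := by
  have h : t.repr (Y * Z) z = ∑ x ∈ (t.repr Y).support, ∑ y ∈ (t.repr Z).support,
      (t.repr Y x * t.repr Z y) * t.repr (t x * t y) z := by
    conv_lhs => rw [← t.linearCombination_repr Y, ← t.linearCombination_repr Z,
      Finsupp.linearCombination_apply, Finsupp.linearCombination_apply, Finsupp.sum, Finsupp.sum,
      Finset.sum_mul_sum, map_sum, Finsupp.finsetSum_apply]
    refine Finset.sum_congr rfl fun x _ ↦ ?_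
    rw [map_sum, Finsupp.finsetSum_apply]
    refine Finset.sum_congr rfl fun y _ ↦ ?_
    rw [smul_mul_smul_comm, map_smul, Finsupp.smul_apply, smul_eq_mul]
  rw [h]
  exact DegLE.sum fun x _ ↦ DegLE.sum fun y _ ↦
    ((hY x).mul_le (m := 0) (hZ y) (by norm_num)).mul_le (ht x y z) (by omega)

end gen

theorem h_h3 (hH2 : H_2) : H_3 := by
  intro I W H _ _ _ M cs L hL D
  obtain ⟨-, -, -, h1, h2, h3, -⟩ := hH2 I W H M cs L hL D
  obtain ⟨b, hb1, hb2, hb3⟩ := exists_basis h1 h2 h3
  have hbc : ⇑b = D.c := funext hb1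
  have huniq : ∀ h : W → W → W →₀ ℤ[T;T⁻¹], D.IsH h → ∀ x y, b.repr (D.c x * D.c y) = h x y := by
    intro h hh x y
    have : (h x y).sum (fun z p ↦ p • D.c z) = Finsupp.linearCombination ℤ[T;T⁻¹] b (h x y) := by
      rw [Finsupp.linearCombination_apply, hbc]
    rw [hh x y, this, b.repr_linearCombination]
  refine ⟨⟨b, hb1, hb2, hb3⟩, ?_, ?_, ?_, ?_⟩
  · refine ⟨fun x y ↦ b.repr (D.c x * D.c y), fun x y ↦ ?_⟩
    have := b.linearCombination_repr (D.c x * D.c y)
    rw [Finsupp.linearCombination_apply, hbc] at this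
    exact this.symm
  · intro h h' hh hh'
    funext x y
    rw [← huniq h hh x y, ← huniq h' hh' x y]
  · intro h N hh hN x y z
    rw [← huniq h hh x y]
    have h0 : ∀ w y, DegLE 0 (D.t.repr (D.c w) y) := by
      intro w y
      by_cases hy : y = w
      · rw [hy, h1 w]
        exact DegLE.one le_rfl
      · exact (h3 w y hy).mono (by norm_num)
    have h0' : ∀ w y, DegLE 0 (b.repr (D.t w) y) := by
      intro w y
      by_cases hy : y = w
      · rw [hy, hb2 w]
        exact DegLE.one le_rfl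
      · exact (hb3 w y hy).1.mono (by norm_num)
    exact degLE_repr h0' (degLE_mul (h0 x) (h0 y) hN) z
  · intro h a a' _ ha ha'
    have key : ∀ a a' : W → ℕ, IsA h a → IsA h a' → ∀ z, ¬ a z < a' z := by
      intro a a' ha ha' z hlt
      obtain ⟨x, y, hxy⟩ := (ha' z).2
      exact hxy (((ha z).1 x y).mono (by omega))
    funext z
    have e1 := key a a' ha ha' z
    have e2 := key a' a ha' ha z
    omega

end Pool.Agent.Helper3.RA
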