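import Pool.Agent.Helper15.RA.GoalsH

/-!
# Project RA (MP_cc6379_al), packet RA-NL: the Coxeter length is additive when the syllable length is
-/

set_option autoImplicit false

open LaurentPolynomial

noncomputable section

namespace Pool.Agent.Helper3.RA

open Pool.Agent.Helper15.RA

theorem h_nl (hEC : E_C) : N_L := by
  intro I V W _ M cs π Γ sl gp x y hxy
  obtain ⟨C, hC1, hC⟩ := gp.recur (Multiplicative ℕ) (fun w ↦ Multiplicative.ofAdd (cs.length w))
    (fun u v _ g _ h _ ↦ mul_comm _ _)
  obtain ⟨-, hmul⟩ := hEC V W Γ (fun v ↦ (iota cs π v).range) sl gp (Multiplicative ℕ)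
    (fun w ↦ Multiplicative.ofAdd (cs.length w)) C hC1 hC
  have hN1 : Multiplicative.toAdd (C 1) = 0 := by rw [hC1]; rfl
  have hrec : ∀ v, ∀ g ∈ (iota cs π v).range, g ≠ 1 → ∀ w, sl (g * w) = sl w + 1 →
      Multiplicative.toAdd (C (g * w)) = cs.length g + Multiplicative.toAdd (C w) := by
    intro v g hg hg1 w hw
    rw [hC v g hg hg1 w hw]
    rfl
  have hle : ∀ n w, sl w = n → cs.length w ≤ Multiplicative.toAdd (C w) := by
    intro n
    induction n using Nat.strong_induction_on with
    | _ n ih =>
      intro w hw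
      by_cases h1 : w = 1
      · rw [h1, hN1, cs.length_one]
      · obtain ⟨v, g, hg, hg1, hgw⟩ := gp.gen w h1
        have h2 : Multiplicative.toAdd (C w) =
            cs.length g + Multiplicative.toAdd (C (g⁻¹ * w)) := by
          have := hrec v g hg hg1 (g⁻¹ * w) (by rw [mul_inv_cancel_left]; exact hgw.symm)
          rwa [mul_inv_cancel_left] at this
        have h3 := ih (sl (g⁻¹ * w)) (by omega) (g⁻¹ * w) rfl
        have h4 := cs.length_mul_le g (g⁻¹ * w)
        rw [mul_inv_cancel_left] at h4
        omega
  have hs : ∀ i w, Multiplicative.toAdd (C (cs.simple i * w)) ≤ Multiplicative.toAdd (C w) + 1 := by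
    intro i w
    obtain ⟨g, hg, hgw⟩ := gp.coset (π i) w
    have key : ∀ h ∈ (iota cs π (π i)).range, Multiplicative.toAdd (C (h * (g * w))) =
        cs.length h + Multiplicative.toAdd (C (g * w)) := by
      intro h hh
      by_cases h1 : h = 1
      · rw [h1, one_mul, cs.length_one, zero_add]
      · exact hrec (π i) h hh h1 _ (hgw h hh h1)
    have hsi : cs.simple i ∈ (iota cs π (π i)).range := by
      refine ⟨(sub M π (π i)).toCoxeterSystem.simple ⟨i, rfl⟩, ?_⟩
      unfold iota
      rw [CoxeterSystem.lift_apply_simple]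
    have h2 := key g⁻¹ (inv_mem hg)
    have h3 := key (cs.simple i * g⁻¹) (mul_mem hsi (inv_mem hg))
    rw [inv_mul_cancel_left] at h2
    rw [mul_assoc, inv_mul_cancel_left] at h3
    have h4 := cs.length_mul_le (cs.simple i) g⁻¹
    rw [cs.length_simple] at h4
    omega
  have hge : ∀ n w, cs.length w = n → Multiplicative.toAdd (C w) ≤ cs.length w := by
    intro n
    induction n with
    | zero =>
      intro w hw
      rw [cs.length_eq_zero_iff] at hw
      rw [hw, hN1]
      exact Nat.zero_le _
    | succ n ih =>
      intro w hw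
      have h1 : w ≠ 1 := by
        intro h
        rw [h, cs.length_one] at hw
        omega
      obtain ⟨i, hi⟩ := cs.exists_leftDescent_of_ne_one h1
      rw [cs.isLeftDescent_iff] at hi
      have h2 := ih (cs.simple i * w) (by omega)
      have h3 := hs i (cs.simple i * w)
      rw [cs.simple_mul_simple_cancel_left] at h3
      omega
  have heq : ∀ w, Multiplicative.toAdd (C w) = cs.length w := fun w ↦
    le_antisymm (hge _ w rfl) (hle _ w rfl)
  rw [← heq x, ← heq y, ← heq (x * y), hmul x y hxy]
  rfl

end Pool.Agent.Helper3.RA
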